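import Mathlib

set_option autoImplicit false
open Set Filter Topology TopologicalSpace

namespace Pool.Agent.H.MP_2beacb

variable {X : Type} [TopologicalSpace X]

abbrev C (X : Type) [TopologicalSpace X] := {f : X → ℝ // Continuous f}

def Full (H : Set (C X)) (V : Set X) : Prop :=
  ∀ D E : Set X, IsClosed D → IsClosed E → D ⊆ V → E ⊆ V → Disjoint D E →
    ∃ h ∈ H, (∀ x ∈ D, h.1 x = 0) ∧ ∀ x ∈ E, h.1 x = 1

def Good (H : Set (C X)) (x : X) : Prop := ∃ V ∈ 𝓝 x, Full H V

theorem Full.mono {H : Set (C X)} {V W : Set X} (h : Full H V) (hW : W ⊆ V) : Full H W :=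
  fun D E a b c d e => h D E a b (c.trans hW) (d.trans hW) e

theorem step (H : Set (C X)) (G : ℕ → Set (C X)) (hG : H ⊆ ⋃ j, G j) (V : Set X) (hV : IsOpen V)
    (hF : Full H V) (φ : X → ℝ) (hφ : Continuous φ) :
    ∃ t, ∀ x ∈ V, (∀ j, ¬ Good (G j) x) → φ x ≤ t := by
  by_contra hc
  push Not at hc
  choose g g1 g2 g3 using hc
  let x : ℕ → X := fun n => Nat.rec (g 0) (fun _ y => g (φ y + 1)) n
  have hx : ∀ n, ∃ t, x n = g t := fun n => by
    cases n with
    | zero => exact ⟨_, rfl⟩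
    | succ n => exact ⟨_, rfl⟩
  have hs : ∀ n, φ (x n) + 1 < φ (x (n + 1)) := fun n => g3 _
  have hm : ∀ i k : ℕ, φ (x i) + k ≤ φ (x (i + k)) := fun i k => by
    induction k with
    | zero => simp
    | succ k ih => have := hs (i + k); rw [← add_assoc]; push_cast; linarith
  let W : ℕ → Set X := fun j => V ∩ φ ⁻¹' Ioo (φ (x j) - 1 / 2) (φ (x j) + 1 / 2)
  have hW : ∀ j, ¬ Full (G j) (W j) := fun j h => by
    obtain ⟨t, ht⟩ := hx j
    refine g2 t j ⟨W j, ?_, h⟩
    rw [← ht]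
    exact (hV.inter (isOpen_Ioo.preimage hφ)).mem_nhds
      ⟨ht ▸ g1 t, by constructor <;> linarith⟩
  unfold Full at hW
  push Not at hW
  choose D E a b c d e f using hW
  have hl : LocallyFinite W := fun y => by
    refine ⟨φ ⁻¹' Iio (φ y + 1), (isOpen_Iio.preimage hφ).mem_nhds (by simp), ?_⟩
    obtain ⟨m, hm'⟩ := exists_nat_gt (φ y + 2 - φ (x 0))
    refine (finite_Iio m).subset ?_
    rintro j ⟨z, hz, hz'⟩
    have h1 := hm 0 j
    rw [zero_add] at h1
    have h2 := hz.2.1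
    have h3 : φ z < φ y + 1 := hz'
    have : (j : ℝ) < m := by linarith
    exact_mod_cast this
  have hd : ∀ i j, i < j → ∀ z, z ∈ W i → z ∈ W j → False := fun i j hij z h1 h2 => by
    obtain ⟨k, rfl⟩ := Nat.exists_eq_add_of_lt hij
    have h3 := hm i (k + 1)
    rw [← add_assoc] at h3
    have h4 := h1.2.2
    have h5 := h2.2.1
    have : (0 : ℝ) ≤ k := Nat.cast_nonneg _
    push_cast at h3
    linarith
  obtain ⟨h, h1, h2, h3⟩ := hF (⋃ j, D j) (⋃ j, E j) ((hl.subset c).isClosed_iUnion a)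
    ((hl.subset d).isClosed_iUnion b) (iUnion_subset fun j => (c j).trans inter_subset_left)
    (iUnion_subset fun j => (d j).trans inter_subset_left) (by
      rw [disjoint_left]
      intro z hz hz'
      obtain ⟨i, hi⟩ := mem_iUnion.1 hz
      obtain ⟨j, hj⟩ := mem_iUnion.1 hz'
      rcases lt_trichotomy i j with h | rfl | h
      · exact hd i j h z (c i hi) (d j hj)
      · exact disjoint_left.1 (e i) hi hj
      · exact hd j i h z (d j hj) (c i hi))
  obtain ⟨j, hj⟩ := mem_iUnion.1 (hG h1)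
  obtain ⟨z, hz, hz'⟩ := f j h hj fun z hz => h2 z (mem_iUnion.2 ⟨j, hz⟩)
  exact hz' (h3 z (mem_iUnion.2 ⟨j, hz⟩))

theorem sep {Z : Type} [TopologicalSpace Z] [RegularSpace Z] (e : C X → Z) (he : IsInducing e) (x : X) :
    ∃ I : Set X, I.Finite ∧ ∀ z, z ∈ closure (e '' {h | ∀ y ∈ I, h.1 y = 0}) →
      z ∉ closure (e '' {h | h.1 x = 1}) := by
  let o : C X := ⟨fun _ => 0, continuous_const⟩
  have h1 : e o ∉ closure (e '' {h | h.1 x = 1}) := by
    intro h
    have h2 : o ∈ closure {h : C X | h.1 x = 1} := by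
      rw [he.closure_eq_preimage_closure_image]; exact h
    have h4 : IsClosed {h : C X | h.1 x = 1} :=
      isClosed_eq ((continuous_apply x).comp continuous_subtype_val) continuous_const
    rw [h4.closure_eq] at h2
    exact zero_ne_one (show (0 : ℝ) = 1 from h2)
  obtain ⟨N, hN, hc, hs⟩ := exists_mem_nhds_isClosed_subset (isClosed_closure.isOpen_compl.mem_nhds h1)
  have h3 : e ⁻¹' N ∈ 𝓝 o := he.continuous.continuousAt hN
  obtain ⟨u, hu, hu'⟩ := (mem_nhds_subtype _ _ _).1 h3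
  rw [nhds_pi, Filter.mem_pi] at hu
  obtain ⟨I, hI, t, ht, ht'⟩ := hu
  refine ⟨I, hI, fun z hz => hs (closure_minimal ?_ hc hz)⟩
  rintro _ ⟨h, hh, rfl⟩
  exact hu' (ht' fun y hy => by rw [hh y hy]; exact mem_of_mem_nhds (ht y))

theorem main [SecondCountableTopology X] [T4Space X] [BaireSpace X] [Nonempty X]
    (φ : ℕ → X → ℝ) (hφ : ∀ n, Continuous (φ n))
    (hb : ∀ U : Set X, IsOpen U → U.Nonempty → ∃ n, ∀ t, ∃ x ∈ U, t < φ n x)
    {Z : Type} [TopologicalSpace Z] [RegularSpace Z] (hZ : MeasureTheory.AnalyticSet (univ : Set Z))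
    (e : C X → Z) (he : IsInducing e) : False := by
  rw [MeasureTheory.AnalyticSet] at hZ
  rcases hZ with hZ | ⟨F, hF, hZ⟩
  · exact (show e ⟨fun _ => 0, continuous_const⟩ ∈ (∅ : Set Z) from hZ ▸ mem_univ _)
  let H : Set X → List ℕ → Set (C X) := fun U s =>
    {h | (∀ y, y ∉ U → h.1 y = 0) ∧ ∃ d, PiNat.res d s.length = s ∧ F d = e h}
  let K : Set X → Set X → List ℕ → Set X := fun U V s =>
    {x | x ∈ V ∧ Full (H U s) V ∧ ∀ j, ¬ Good (H U (j :: s)) x}
  have hK : ∀ U V s, IsOpen V → IsMeagre (K U V s) := fun U V s hV => by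
    refine IsNowhereDense.isMeagre (eq_empty_iff_forall_notMem.2 fun y hy => ?_)
    obtain ⟨n, hn⟩ := hb _ isOpen_interior ⟨y, hy⟩
    obtain ⟨z, hz⟩ := closure_nonempty_iff.1 ⟨y, interior_subset hy⟩
    obtain ⟨t, ht⟩ := step (H U s) (fun j => H U (j :: s)) (by
      rintro h ⟨h1, d, h2, h3⟩
      exact mem_iUnion.2 ⟨d s.length, h1, d, by simp [h2], h3⟩) V hV hz.2.1 (φ n) (hφ n)
    obtain ⟨x, hx, hx'⟩ := hn t
    exact not_le.2 hx' (closure_minimal (t := {x | φ n x ≤ t}) (fun x hx => ht x hx.1 hx.2.2)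
      (isClosed_le (hφ n) continuous_const) (interior_subset hx))
  have : Countable (countableBasis X) := (countable_countableBasis X).to_subtype
  have hM : IsMeagre (⋃ p : countableBasis X × countableBasis X × List ℕ, K p.1 p.2.1 p.2.2) :=
    isMeagre_iUnion fun p => hK _ _ _ (isOpen_of_mem_countableBasis p.2.1.2)
  obtain ⟨x, hx⟩ := (dense_of_mem_residual hM).nonempty
  obtain ⟨I, hI, hs⟩ := sep e he x
  obtain ⟨U, hU, hxU, hUI⟩ := (isBasis_countableBasis X).mem_nhds_iff.1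
    ((hI.subset (sdiff_subset (t := {x}))).isClosed.isOpen_compl.mem_nhds (show x ∉ I \ {x} by simp))
  have hUo := isOpen_of_mem_countableBasis hU
  have h0 : Good (H U []) x := by
    refine ⟨U, hUo.mem_nhds hxU, fun D E a b c d f => ?_⟩
    obtain ⟨g, g0, g1, -⟩ := exists_continuous_zero_one_of_isClosed (a.union hUo.isClosed_compl) b
      (disjoint_union_left.2 ⟨f, disjoint_left.2 fun y hy hy' => hy (d hy')⟩)
    obtain ⟨c, hc⟩ : e ⟨g, g.continuous⟩ ∈ range F := hZ ▸ mem_univ _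
    exact ⟨⟨g, g.continuous⟩, ⟨fun y hy => g0 (Or.inr hy), c, rfl, hc⟩, fun y hy => g0 (Or.inl hy),
      fun y hy => g1 hy⟩
  have h1 : ∀ s, ∃ j, Good (H U s) x → Good (H U (j :: s)) x := fun s => by
    by_contra hc
    push Not at hc
    obtain ⟨V, hV, hf⟩ := (hc 0).1
    obtain ⟨W, hW, hxW, hWV⟩ := (isBasis_countableBasis X).mem_nhds_iff.1 hV
    exact hx (mem_iUnion.2 ⟨(⟨U, hU⟩, ⟨W, hW⟩, s), hxW, hf.mono hWV, fun j => (hc j).2⟩)
  choose j hj using h1
  let s : ℕ → List ℕ := fun n => Nat.rec [] (fun _ l => j l :: l) n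
  let c : ℕ → ℕ := fun n => j (s n)
  have hc : ∀ n, PiNat.res c n = s n := fun n => by
    induction n with
    | zero => rfl
    | succ n ih => rw [PiNat.res_succ, ih]
  have hg : ∀ n, Good (H U (s n)) x := fun n => by
    induction n with
    | zero => exact h0
    | succ n ih => exact hj _ ih
  have key : ∀ A : Set (C X), (∀ n, ∃ h ∈ H U (s n), h ∈ A) → F c ∈ closure (e '' A) := fun A hA => by
    choose h ha hb using hA
    choose d hd hd' using fun n => (ha n).2
    have ht : Tendsto d atTop (𝓝 c) := tendsto_pi_nhds.2 fun i => by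
      refine tendsto_const_nhds.congr' ?_
      filter_upwards [eventually_gt_atTop i] with n hn
      have h2 := hd n
      rw [← hc, PiNat.res_length] at h2
      exact (PiNat.res_eq_res.1 h2 hn).symm
    exact mem_closure_of_tendsto ((hF.tendsto c).comp ht)
      (Eventually.of_forall fun n => ⟨h n, hb n, (hd' n).symm⟩)
  refine hs (F c) (key _ fun n => ?_) (key _ fun n => ?_)
  · obtain ⟨V, hV, hf⟩ := hg n
    obtain ⟨h, a, b, -⟩ := hf {x} ∅ isClosed_singleton isClosed_empty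
      (singleton_subset_iff.2 (mem_of_mem_nhds hV)) (empty_subset _) (disjoint_empty _)
    refine ⟨h, a, fun y hy => ?_⟩
    by_cases hyx : y = x
    · exact b y hyx
    · exact a.1 y fun hyU => hUI hyU ⟨hy, hyx⟩
  · obtain ⟨V, hV, hf⟩ := hg n
    obtain ⟨h, a, -, b⟩ := hf ∅ {x} isClosed_empty isClosed_singleton
      (empty_subset _) (singleton_subset_iff.2 (mem_of_mem_nhds hV)) (empty_disjoint _)
    exact ⟨h, a, b x rfl⟩

theorem irr {Z : Type} [TopologicalSpace Z] [RegularSpace Z]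
    (hZ : MeasureTheory.AnalyticSet (univ : Set Z))
    (e : C {x : ℝ // Irrational x} → Z) (he : IsInducing e) : False := by
  have : BaireSpace {x : ℝ // Irrational x} :=
    IsGδ.setOfPred_irrational.baireSpace_of_dense dense_irrational
  have : Nonempty {x : ℝ // Irrational x} := ⟨⟨_, irrational_sqrt_two⟩⟩
  obtain ⟨q, hq⟩ := exists_surjective_nat ℚ
  have hn : ∀ n (x : {x : ℝ // Irrational x}), |x.1 - q n| ≠ 0 := fun n x h =>
    x.2 ⟨q n, (sub_eq_zero.1 (abs_eq_zero.1 h)).symm⟩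
  refine main (fun n x => |x.1 - q n|⁻¹) (fun n => Continuous.inv₀ (by fun_prop) (hn n))
    (fun U hU hU' => ?_) hZ e he
  obtain ⟨V, hV, rfl⟩ := isOpen_induced_iff.1 hU
  obtain ⟨x, hx⟩ := hU'
  obtain ⟨r, hr⟩ := Rat.denseRange_cast.exists_mem_open hV ⟨x.1, hx⟩
  obtain ⟨n, rfl⟩ := hq r
  refine ⟨n, fun t => ?_⟩
  have hp : 0 < |t| + 1 := by positivity
  obtain ⟨y, hy, hy'⟩ := dense_irrational.inter_open_nonempty _
    (hV.inter (Metric.isOpen_ball (x := (q n : ℝ)) (ε := (|t| + 1)⁻¹)))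
    ⟨_, hr, Metric.mem_ball_self (by positivity)⟩
  refine ⟨⟨y, hy'⟩, hy.1, ?_⟩
  have h1 : |y - q n| < (|t| + 1)⁻¹ := hy.2
  have h2 : 0 < |y - q n| := (abs_nonneg _).lt_of_ne' (hn n ⟨y, hy'⟩)
  have h3 := (lt_inv_comm₀ h2 hp).1 h1
  have := le_abs_self t
  show t < |y - q n|⁻¹
  linarith

theorem pw {Z : Type} [TopologicalSpace Z] [RegularSpace Z]
    (hZ : MeasureTheory.AnalyticSet (univ : Set Z))
    (e : C (ℕ → ℝ) → Z) (he : IsInducing e) : False := by
  refine main (fun n x => x n) (fun n => continuous_apply n) (fun U hU hU' => ?_) hZ e he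
  obtain ⟨x, hx⟩ := hU'
  have hu := hU.mem_nhds hx
  rw [nhds_pi, Filter.mem_pi] at hu
  obtain ⟨I, hI, t, ht, ht'⟩ := hu
  obtain ⟨n, hn⟩ := hI.exists_notMem
  refine ⟨n, fun r => ⟨Function.update x n (r + 1), ht' fun i hi => ?_, by simp⟩⟩
  rw [Function.update_of_ne (by rintro rfl; exact hn hi)]
  exact mem_of_mem_nhds (ht i)

theorem pull {T : Type} [TopologicalSpace T] (r : T → X) (hr : Continuous r)
    (hs : Function.Surjective r) : IsInducing (fun f : C X => (⟨f.1 ∘ r, f.2.comp hr⟩ : C T)) := by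
  rw [isInducing_iff_nhds]
  intro f
  refine le_antisymm (Tendsto.le_comap (Continuous.tendsto ?_ f)) ?_
  · refine Continuous.subtype_mk (continuous_pi fun t => ?_) _
    exact (continuous_apply (r t)).comp continuous_subtype_val
  · refine tendsto_id'.1 ?_
    rw [tendsto_subtype_rng, tendsto_pi_nhds]
    intro x
    obtain ⟨t, rfl⟩ := hs x
    exact (((continuous_apply t).comp continuous_subtype_val).tendsto _).comp
      (tendsto_comap (f := fun f : C X => (⟨f.1 ∘ r, f.2.comp hr⟩ : C T)))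

theorem sur : ∃ r : C {x : ℝ // Irrational x} → ℕ → ℝ, Continuous r ∧ Function.Surjective r := by
  refine ⟨fun f n => f.1 ⟨√2 + n, irrational_sqrt_two.add_natCast n⟩,
    continuous_pi fun n => (continuous_apply _).comp continuous_subtype_val, fun a => ?_⟩
  have h1 : Continuous fun x : {x : ℝ // Irrational x} => ⌊x.1⌋ := by
    rw [continuous_iff_continuousAt]
    intro x
    refine tendsto_const_nhds.congr' ?_
    have h2 : (⌊x.1⌋ : ℝ) < x.1 := (Int.floor_le _).lt_of_ne fun h => x.2 ⟨⌊x.1⌋, by exact_mod_cast h⟩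
    filter_upwards [continuous_subtype_val.continuousAt (Ioo_mem_nhds h2 (Int.lt_floor_add_one x.1))]
      with y hy
    exact (Int.floor_eq_iff.2 ⟨hy.1.le, hy.2⟩).symm
  refine ⟨⟨fun x => a (⌊x.1⌋ - 1).toNat,
    (continuous_of_discreteTopology (f := fun z : ℤ => a (z - 1).toNat)).comp h1⟩, ?_⟩
  funext n
  have h3 : ⌊√2⌋ = 1 := Int.floor_eq_iff.2 ⟨by simp, by
    rw [Real.sqrt_lt' (by norm_num)]; norm_num⟩
  simp [h3]

end Pool.Agent.H.MP_2beacb
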